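import Pool.Agent.H86.SWX.GDa

/-!
# Module GD of the board swx_modules: the bound for the dual sums
-/

set_option autoImplicit false

open NumberField NumberField.InfinitePlace Set
open scoped nonZeroDivisors

namespace Pool.Agent.H86.SWX

open Pool.Agent.H25.HK Pool.Agent.H31.SW Pool.Agent.H31.SX Pool.Agent.H63.SWL Pool.Agent.H23.LB
open Pool.Agent.H63.SWL.GD (Wt one_le_Wt triple_sum numbers Q_bounds PP_mhalf one_le_Mt norm_F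
  supp_F cc)
open Pool.Agent.H29.DW (dg Rl wv Pos rv wv_add)
open Pool.Agent.H86.SWX.GD

section one

variable {K : Type} [Field K] [NumberField K]

/-- the bound for one triple -/
theorem GD.term_X {n : ℕ} {C₃ : ℝ} (hC₃ : 0 ≤ C₃) (hK : Module.finrank ℚ K = n) {L : FI K}
    (hL : L ≠ 0) {y : InfinitePlace K → ℝ} {ω : InfinitePlace K → ℂ} {t : InfinitePlace K → Bool}
    {Λ : InfinitePlace K → ℂ} {k r : Ideal (𝓞 K)} {G : K → ℂ} (hω : Pos ω) (hRK : RK k r)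
    (hM : ∀ v, 1 ≤ Mt (t v) (Λ v))
    (H3 : ∀ (g₁ g₂ g₃ : K) (e₁ e₂ e₃ : Ideal (𝓞 K)), g₁ ≠ 0 → g₂ ≠ 0 → g₃ ≠ 0 →
    g₁ ∈ (r : FI K) * L → g₂ ∈ (r : FI K) * L → g₃ ∈ (r : FI K) * L →
    Gcd k L g₁ e₁ → Gcd k L g₂ e₂ → Gcd k L g₃ e₃ →
    (∀ v, t v = true → ‖wv v g₁ y ω‖ ≤ 1 / 2000 * ‖Λ v‖ ∧ ‖wv v g₂ y ω‖ ≤ 1 / 2000 * ‖Λ v‖ ∧
      ‖wv v g₃ y ω‖ ≤ 1 / 2000 * ‖Λ v‖) →
    ‖∑' x : {x : K // x ∈ L}, dif g₃ (dif g₂ (dif g₁ G)) x‖ ≤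
      C₃ * Nf K r ^ 3 * Real.sqrt (dK K) * ((DD L y * PP (fun v => Mt (t v) (Λ v))) *
        PP (fun v => 1 + Ph (t v) (Λ v) (wv v g₁ y ω) (wv v g₂ y ω) (wv v g₃ y ω)) ^
          (-(1 / 2) : ℝ) * Real.sqrt (Nf K (k ⊔ e₁ * e₂ * e₃) / Nf K k) +
        PP (fun v => 1 + Ph (t v) (Λ v) (wv v g₁ y ω) (wv v g₂ y ω) (wv v g₃ y ω)) ^
          (1 / 2 : ℝ) * Real.sqrt (Nf K k / Nf K (k ⊔ e₁ * e₂ * e₃))))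
    {m : InfinitePlace K → ℝ} (hmdef : m = fun v => Mt (t v) (Λ v))
    {θ₁ θ₂ θ₃ σ : ℝ} (hθ₁ : 0 ≤ θ₁) (hθ₂ : 0 ≤ θ₂) (hθ₃ : 0 ≤ θ₃) (hσ : σ = θ₁ + θ₂ + θ₃)
    (hσ1 : σ ≤ 1) {κ₁ κ₂ κ₃ : Ideal (𝓞 K)} (hκ₁ : κ₁ ≤ r) (hκ₂ : κ₂ ≤ r) (hκ₃ : κ₃ ≤ r)
    (hκ : Nf K k ^ σ ≤ Nf K (k ⊔ κ₁ * κ₂ * κ₃)) {g₁ g₂ g₃ : K} {e₁ e₂ e₃ : Ideal (𝓞 K)}
    (hg₁ : g₁ ∈ (κ₁ : FI K) * L ∧ g₁ ≠ 0 ∧ ∀ v, ‖wv v g₁ y ω‖ ≤ 1 / 2000 * m v ^ (1 - θ₁))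
    (hg₂ : g₂ ∈ (κ₂ : FI K) * L ∧ g₂ ≠ 0 ∧ ∀ v, ‖wv v g₂ y ω‖ ≤ 1 / 2000 * m v ^ (1 - θ₂))
    (hg₃ : g₃ ∈ (κ₃ : FI K) * L ∧ g₃ ≠ 0 ∧ ∀ v, ‖wv v g₃ y ω‖ ≤ 1 / 2000 * m v ^ (1 - θ₃))
    (he₁ : Gcd k L g₁ e₁) (he₂ : Gcd k L g₂ e₂) (he₃ : Gcd k L g₃ e₃) {Pm : ℝ}
    (hPm : Pm = PP m ^ (1 - θ₁ - θ₂ - θ₃)) :
    ‖∑' x : {x : K // x ∈ L}, dif g₃ (dif g₂ (dif g₁ G)) x‖ ≤
      C₃ * Nf K r ^ 3 * Real.sqrt (dK K) * ((((1 / 2000 : ℝ) ^ 3) ^ n) ^ (-(1 / 2) : ℝ) *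
        (DD L y * PP m) * Pm ^ (-(1 / 2) : ℝ) * Nf K k ^ (-(1 / 2) : ℝ)) *
        ((Wt m θ₁ y ω g₁ * Real.sqrt (Nf K e₁)) * ((Wt m θ₂ y ω g₂ * Real.sqrt (Nf K e₂)) *
          (Wt m θ₃ y ω g₃ * Real.sqrt (Nf K e₃)))) +
      C₃ * Nf K r ^ 3 * Real.sqrt (dK K) * (((2 : ℝ) ^ n) ^ (1 / 2 : ℝ) * Pm ^ (1 / 2 : ℝ) *
        Nf K k ^ ((1 - σ) / 2)) := by
  obtain ⟨hg₁κ, hg₁0, hg₁⟩ := hg₁
  obtain ⟨hg₂κ, hg₂0, hg₂⟩ := hg₂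
  obtain ⟨hg₃κ, hg₃0, hg₃⟩ := hg₃
  have hm' : ∀ v, 1 ≤ m v := fun v => by rw [hmdef]; exact hM v
  have hnk : 1 ≤ Nf K k := one_le_Nf hRK.k_ne
  have hnr : 1 ≤ Nf K r := one_le_Nf hRK.r_ne
  have hle : ∀ θ : ℝ, 0 ≤ θ → ∀ v, m v ^ (1 - θ) ≤ m v := fun θ hθ v => by
    have h1 := Real.rpow_le_rpow_of_exponent_le (hm' v) (by linarith : 1 - θ ≤ 1)
    rwa [Real.rpow_one] at h1
  have hsmall : ∀ v, t v = true → ‖wv v g₁ y ω‖ ≤ 1 / 2000 * ‖Λ v‖ ∧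
      ‖wv v g₂ y ω‖ ≤ 1 / 2000 * ‖Λ v‖ ∧ ‖wv v g₃ y ω‖ ≤ 1 / 2000 * ‖Λ v‖ := by
    intro v hv
    have hMv : ‖Λ v‖ = m v := by rw [hmdef]; simp [Mt, hv]
    rw [hMv]
    have l1 := hle θ₁ hθ₁ v
    have l2 := hle θ₂ hθ₂ v
    have l3 := hle θ₃ hθ₃ v
    have l4 := hg₁ v
    have l5 := hg₂ v
    have l6 := hg₃ v
    refine ⟨by linarith, by linarith, by linarith⟩
  refine (H3 g₁ g₂ g₃ e₁ e₂ e₃ hg₁0 hg₂0 hg₃0 (mul_mono_L hκ₁ L hg₁κ) (mul_mono_L hκ₂ L hg₂κ)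
    (mul_mono_L hκ₃ L hg₃κ) he₁ he₂ he₃ hsmall).trans ?_
  obtain ⟨hG1, hG2⟩ := Nf_G hRK.k_ne he₁ he₂ he₃ hg₁κ hg₂κ hg₃κ
  have hG3 := hκ.trans hG2
  have hb₁ : ∀ v, ‖wv v g₁ y ω‖ ≤ 1 / 2000 * Mt (t v) (Λ v) ^ (1 - θ₁) := fun v => by
    have h1 := hg₁ v
    rw [hmdef] at h1
    exact h1
  have hb₂ : ∀ v, ‖wv v g₂ y ω‖ ≤ 1 / 2000 * Mt (t v) (Λ v) ^ (1 - θ₂) := fun v => by
    have h1 := hg₂ v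
    rw [hmdef] at h1
    exact h1
  have hb₃ : ∀ v, ‖wv v g₃ y ω‖ ≤ 1 / 2000 * Mt (t v) (Λ v) ^ (1 - θ₃) := fun v => by
    have h1 := hg₃ v
    rw [hmdef] at h1
    exact h1
  obtain ⟨hQ1, hQ2⟩ := Q_bounds hK hM (hσ ▸ hσ1) (b₁ := fun v => wv v g₁ y ω)
    (b₂ := fun v => wv v g₂ y ω) (b₃ := fun v => wv v g₃ y ω) hb₁ hb₂ hb₃
  have hu : ∀ (θ : ℝ) (x : K), x ≠ 0 → ∀ v,
      0 < ‖wv v x y ω‖ / (1 / 2000 * Mt (t v) (Λ v) ^ (1 - θ)) := fun θ x hx v =>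
    div_pos (norm_wv_pos hω hx) (mul_pos (by norm_num)
      (Real.rpow_pos_of_pos (by linarith [hM v]) _))
  have hQ0 : 0 < PP (fun v => 1 + Ph (t v) (Λ v) (wv v g₁ y ω) (wv v g₂ y ω)
      (wv v g₃ y ω)) := by
    refine PP_pos fun v => ?_
    have : 0 ≤ Ph (t v) (Λ v) (wv v g₁ y ω) (wv v g₂ y ω) (wv v g₃ y ω) := by
      unfold Ph
      split_ifs
      · positivity
      · exact le_rfl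
    linarith
  have hW : ∀ (θ : ℝ) (x : K), x ≠ 0 → Wt m θ y ω x =
      PP (fun v => ‖wv v x y ω‖ / (1 / 2000 * Mt (t v) (Λ v) ^ (1 - θ))) ^ (-(1 / 2) : ℝ) := by
    intro θ x hx
    rw [PP_mhalf fun v => (hu θ x hx v).le, hmdef]
    rfl
  have hmd : PP (fun v => Mt (t v) (Λ v)) = PP m := by rw [hmdef]
  have hPm0 : 0 < Pm := by
    rw [hPm]
    exact Real.rpow_pos_of_pos (PP_pos fun v => by linarith [hm' v]) _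
  have hDD : 0 < DD L y * PP m :=
    mul_pos (DD_pos hL y) (PP_pos fun v => by linarith [hm' v])
  rw [hmd] at hQ1 hQ2 ⊢
  rw [← hPm] at hQ1 hQ2
  rw [hW θ₁ g₁ hg₁0, hW θ₂ g₂ hg₂0, hW θ₃ g₃ hg₃0]
  have hG0 : 0 < Nf K (k ⊔ e₁ * e₂ * e₃) :=
    lt_of_lt_of_le (Real.rpow_pos_of_pos (by linarith) _) hG3
  have hN : ∀ e : Ideal (𝓞 K), 0 ≤ Nf K e := fun e => by
    unfold Nf
    exact Nat.cast_nonneg _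
  exact term_num2 hQ0 hPm0 (by positivity) (by positivity) (PP_pos (hu θ₁ g₁ hg₁0))
    (PP_pos (hu θ₂ g₂ hg₂0)) (PP_pos (hu θ₃ g₃ hg₃0)) hDD.le
    (mul_nonneg (mul_nonneg hC₃ (by positivity)) (Real.sqrt_nonneg _)) hQ1 hQ2 (by linarith)
    hG0 (hN e₁) (hN e₂) (hN e₃) hG1 hG3

end one

/-- the sum over the triples of a bound in two parts -/
theorem GD.triple_sum2 {α : Type} {X₁ X₂ X₃ : Finset α} {f : α → α → α → ℝ} {W₁ W₂ W₃ : α → ℝ}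
    {c d m₁ m₂ m₃ q₁ q₂ q₃ : ℝ} (hc : 0 ≤ c) (hd : 0 ≤ d) (h0₁ : ∀ x ∈ X₁, 0 ≤ W₁ x)
    (h0₂ : ∀ x ∈ X₂, 0 ≤ W₂ x) (h0₃ : ∀ x ∈ X₃, 0 ≤ W₃ x)
    (hf : ∀ x₁ ∈ X₁, ∀ x₂ ∈ X₂, ∀ x₃ ∈ X₃, f x₁ x₂ x₃ ≤ c * (W₁ x₁ * (W₂ x₂ * W₃ x₃)) + d)
    (h1 : ∑ x ∈ X₁, W₁ x ≤ m₁) (h2 : ∑ x ∈ X₂, W₂ x ≤ m₂) (h3 : ∑ x ∈ X₃, W₃ x ≤ m₃)
    (k1 : (X₁.card : ℝ) ≤ q₁) (k2 : (X₂.card : ℝ) ≤ q₂) (k3 : (X₃.card : ℝ) ≤ q₃) :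
    ∑ x₁ ∈ X₁, ∑ x₂ ∈ X₂, ∑ x₃ ∈ X₃, f x₁ x₂ x₃ ≤
      c * (m₁ * (m₂ * m₃)) + d * (q₁ * (q₂ * q₃)) := by
  have e1 : ∑ x₁ ∈ X₁, ∑ x₂ ∈ X₂, ∑ x₃ ∈ X₃, f x₁ x₂ x₃ ≤
      ∑ x₁ ∈ X₁, ∑ x₂ ∈ X₂, ∑ x₃ ∈ X₃, (c * (W₁ x₁ * (W₂ x₂ * W₃ x₃)) + d * (1 * (1 * 1))) :=
    Finset.sum_le_sum fun x₁ h₁ => Finset.sum_le_sum fun x₂ h₂ => Finset.sum_le_sum fun x₃ h₃ =>
      (hf x₁ h₁ x₂ h₂ x₃ h₃).trans (le_of_eq (by ring))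
  refine e1.trans ?_
  simp only [Finset.sum_add_distrib]
  refine add_le_add (triple_sum hc h0₁ h0₂ h0₃ (fun _ _ _ _ _ _ => le_rfl) h1 h2 h3) ?_
  refine triple_sum (W₁ := fun _ => 1) (W₂ := fun _ => 1) (W₃ := fun _ => 1) hd
    (fun _ _ => zero_le_one) (fun _ _ => zero_le_one) (fun _ _ => zero_le_one)
    (fun _ _ _ _ _ _ => le_rfl) ?_ ?_ ?_
  · rw [Finset.sum_const, nsmul_eq_mul, mul_one]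
    exact k1
  · rw [Finset.sum_const, nsmul_eq_mul, mul_one]
    exact k2
  · rw [Finset.sum_const, nsmul_eq_mul, mul_one]
    exact k3

/-- the numbers of the sum over the triples -/
theorem GD.numT {C₃ nr sd k₁ k₂ Mv Pm P nk σ θ₁ θ₂ θ₃ CY CU CD R₁ R₂ R₃ T : ℝ} (hC₃ : 0 ≤ C₃)
    (hnr : 1 ≤ nr) (hsd : 0 ≤ sd) (hk₁ : 0 ≤ k₁) (hk₂ : 0 ≤ k₂) (hMv : 0 ≤ Mv) (hPm : 0 < Pm)
    (hnk : 0 < nk) (hσ : σ = θ₁ + θ₂ + θ₃) (hP : P = Pm * nk ^ (1 - σ)) (hCY : 0 ≤ CY)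
    (hCU : 0 ≤ CU) (hCD : CD = 2 * CU + CY) (hR₁ : 0 ≤ R₁) (hR₂ : 0 ≤ R₂) (hR₃ : 0 ≤ R₃)
    (hT : T ≤ C₃ * nr ^ 3 * sd * (k₁ * Mv * Pm ^ (-(1 / 2) : ℝ) * nk ^ (-(1 / 2) : ℝ)) *
      ((CY * nr * (R₁ * nk ^ (θ₁ / 2))) * ((CY * nr * (R₂ * nk ^ (θ₂ / 2))) *
        (CY * nr * (R₃ * nk ^ (θ₃ / 2))))) +
      C₃ * nr ^ 3 * sd * (k₂ * Pm ^ (1 / 2 : ℝ) * nk ^ ((1 - σ) / 2)) *
        ((2 * CU * R₁) * ((2 * CU * R₂) * (2 * CU * R₃)))) :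
    T ≤ nr ^ 5 * (C₃ * (sd * nr) * (CD ^ 3 * (R₁ * R₂ * R₃)) *
      (k₁ * Mv * P ^ (-(1 / 2) : ℝ) + k₂ * P ^ (1 / 2 : ℝ))) := by
  have e1 : P ^ (-(1 / 2) : ℝ) = Pm ^ (-(1 / 2) : ℝ) * nk ^ (-(1 / 2) : ℝ) *
      (nk ^ (θ₁ / 2) * nk ^ (θ₂ / 2) * nk ^ (θ₃ / 2)) := by
    rw [hP, Real.mul_rpow hPm.le (Real.rpow_nonneg hnk.le _), ← Real.rpow_mul hnk.le,
      ← Real.rpow_add hnk, ← Real.rpow_add hnk, mul_assoc, ← Real.rpow_add hnk, hσ]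
    ring_nf
  have e2 : P ^ (1 / 2 : ℝ) = Pm ^ (1 / 2 : ℝ) * nk ^ ((1 - σ) / 2) := by
    rw [hP, Real.mul_rpow hPm.le (Real.rpow_nonneg hnk.le _), ← Real.rpow_mul hnk.le]
    ring_nf
  have p1 : 0 ≤ P ^ (-(1 / 2) : ℝ) := by
    rw [e1]
    positivity
  have p2 : 0 ≤ P ^ (1 / 2 : ℝ) := by
    rw [e2]
    positivity
  have hCD0 : 0 ≤ CD := by linarith
  have hR : 0 ≤ R₁ * R₂ * R₃ := by positivity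
  have f1 : C₃ * nr ^ 3 * sd * (k₁ * Mv * Pm ^ (-(1 / 2) : ℝ) * nk ^ (-(1 / 2) : ℝ)) *
      ((CY * nr * (R₁ * nk ^ (θ₁ / 2))) * ((CY * nr * (R₂ * nk ^ (θ₂ / 2))) *
        (CY * nr * (R₃ * nk ^ (θ₃ / 2))))) =
      nr ^ 5 * (C₃ * (sd * nr) * (CY ^ 3 * (R₁ * R₂ * R₃)) * (k₁ * Mv * P ^ (-(1 / 2) : ℝ))) := by
    rw [e1]
    ring
  have f2 : C₃ * nr ^ 3 * sd * (k₂ * Pm ^ (1 / 2 : ℝ) * nk ^ ((1 - σ) / 2)) *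
        ((2 * CU * R₁) * ((2 * CU * R₂) * (2 * CU * R₃))) =
      nr ^ 3 * (C₃ * sd * ((2 * CU) ^ 3 * (R₁ * R₂ * R₃)) * (k₂ * P ^ (1 / 2 : ℝ))) := by
    rw [e2]
    ring
  rw [f1, f2] at hT
  have g1 : nr ^ 5 * (C₃ * (sd * nr) * (CY ^ 3 * (R₁ * R₂ * R₃)) *
      (k₁ * Mv * P ^ (-(1 / 2) : ℝ))) ≤ nr ^ 5 * (C₃ * (sd * nr) * (CD ^ 3 * (R₁ * R₂ * R₃)) *
      (k₁ * Mv * P ^ (-(1 / 2) : ℝ))) := by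
    have : CY ≤ CD := by linarith
    gcongr
  have g2 : nr ^ 3 * (C₃ * sd * ((2 * CU) ^ 3 * (R₁ * R₂ * R₃)) * (k₂ * P ^ (1 / 2 : ℝ))) ≤
      nr ^ 5 * (C₃ * (sd * nr) * (CD ^ 3 * (R₁ * R₂ * R₃)) * (k₂ * P ^ (1 / 2 : ℝ))) := by
    have h1 : 2 * CU ≤ CD := by linarith
    have h2 : nr ^ 3 ≤ nr ^ 5 := pow_le_pow_right₀ hnr (by norm_num)
    have h3 : sd ≤ sd * nr := le_mul_of_one_le_right hsd hnr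
    gcongr
  calc T ≤ _ := hT.trans (add_le_add g1 g2)
    _ = _ := by ring

/-- the last step of the numbers -/
theorem GD.numF {S nr a b T T' E sd U : ℝ} (hS : S ^ 8 ≤ a + b * T) (ha : 0 ≤ a) (hb : 0 ≤ b)
    (hnr : 1 ≤ nr) (_hE : 0 ≤ E) (hU : 0 ≤ U) (hT : T ≤ nr ^ 5 * T')
    (hnum : a + b * T' ≤ E ^ 8 * (sd * nr) ^ 8 * U) :
    S ^ 8 ≤ (E * (nr ^ 2 * sd)) ^ 8 * U := by
  have h5 : 1 ≤ nr ^ 5 := one_le_pow₀ hnr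
  have h1 : a + b * T ≤ nr ^ 5 * (a + b * T') := by
    have h2 : b * T ≤ b * (nr ^ 5 * T') := mul_le_mul_of_nonneg_left hT hb
    have h3 : a ≤ nr ^ 5 * a := le_mul_of_one_le_left ha h5
    calc a + b * T ≤ nr ^ 5 * a + b * (nr ^ 5 * T') := add_le_add h3 h2
      _ = _ := by ring
  have h2 : nr ^ 5 * (a + b * T') ≤ nr ^ 5 * (E ^ 8 * (sd * nr) ^ 8 * U) :=
    mul_le_mul_of_nonneg_left hnum (by linarith)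
  have h3 : nr ^ 5 * (E ^ 8 * (sd * nr) ^ 8 * U) = nr ^ 13 * (E ^ 8 * sd ^ 8 * U) := by ring
  have h4 : (E * (nr ^ 2 * sd)) ^ 8 * U = nr ^ 16 * (E ^ 8 * sd ^ 8 * U) := by ring
  have h6 : nr ^ 13 * (E ^ 8 * sd ^ 8 * U) ≤ nr ^ 16 * (E ^ 8 * sd ^ 8 * U) := by
    refine mul_le_mul_of_nonneg_right (pow_le_pow_right₀ hnr (by norm_num)) ?_
    have h7 : 0 ≤ sd ^ 8 := by
      have : sd ^ 8 = (sd ^ 4) ^ 2 := by ring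
      rw [this]
      positivity
    positivity
  rw [h4]
  rw [h3] at h2
  exact hS.trans (h1.trans (h2.trans h6))

theorem pf_GD (hCU : W_CU) (hCL : W_CL) (hTD : W_TD) (hNG : W_NG) (hP3 : X_P3) (hKP : X_KP)
    (hDY : X_DY) (hGX : X_GX) : X_GD := by
  classical
  intro n hn
  obtain ⟨CU, hCU1, HU⟩ := hCU n hn
  obtain ⟨cL, hcL, HL⟩ := hCL n hn
  obtain ⟨CY, hCY, HY⟩ := hDY n hn
  obtain ⟨C₃, hC₃, H3⟩ := hP3 n hn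
  obtain ⟨CD, hCD⟩ : ∃ CD : ℝ, CD = 2 * CU + CY := ⟨_, rfl⟩
  obtain ⟨c₂, hc₂⟩ : ∃ c₂ : ℝ, c₂ = 2 * (CU * 3 ^ n) / (cL * (1 / 4000) ^ n) := ⟨_, rfl⟩
  obtain ⟨k₁, hk₁⟩ : ∃ k₁ : ℝ, k₁ = (((1 / 2000 : ℝ) ^ 3) ^ n) ^ (-(1 / 2) : ℝ) := ⟨_, rfl⟩
  obtain ⟨k₂, hk₂⟩ : ∃ k₂ : ℝ, k₂ = ((2 : ℝ) ^ n) ^ (1 / 2 : ℝ) := ⟨_, rfl⟩
  have hc₂0 : 0 ≤ c₂ := by
    rw [hc₂]
    positivity
  have hk₁0 : 0 ≤ k₁ := by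
    rw [hk₁]
    positivity
  have hk₂0 : 0 ≤ k₂ := by
    rw [hk₂]
    positivity
  have hCN0 : 0 ≤ CU * 3 ^ n := by positivity
  have hCD0 : 0 ≤ CD := by linarith
  obtain ⟨E, hE⟩ : ∃ E : ℝ, E = 1 + (8 * c₂ ^ 4 * (2 * (CU * 3 ^ n)) ^ 4 +
      16 * (c₂ * CD) ^ 4 * c₂ ^ 2 * (2 * (CU * 3 ^ n)) ^ 2 +
      16 * (c₂ * CD) ^ 6 * c₂ * (2 * (CU * 3 ^ n)) +
      16 * (c₂ * CD) ^ 4 * c₂ ^ 3 * C₃ * CD ^ 3 * (k₁ + k₂)) := ⟨_, rfl⟩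
  have hE0 : 0 ≤ E := by
    rw [hE]
    positivity
  refine ⟨2 * (CU * 3 ^ n) + 3 * E, by linarith, ?_⟩
  intro K _ _ hK L y ω t Λ a g F k r Φ hL hω hRK hF hFD
  have hm : ∀ v, 1 ≤ Mt (t v) (Λ v) := fun v => one_le_Mt (hF v)
  obtain ⟨m, hmdef⟩ : ∃ m : InfinitePlace K → ℝ, m = fun v => Mt (t v) (Λ v) := ⟨_, rfl⟩
  have hm' : ∀ v, 1 ≤ m v := fun v => by rw [hmdef]; exact hm v
  have hm0 : ∀ v, 0 < m v := fun v => by linarith [hm' v]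
  have hPP1 : 1 ≤ PP m := one_le_PP hm'
  have hD0 : 0 < DD L y := DD_pos hL y
  have hd1 : 1 ≤ dK K := one_le_dK
  have hs1 : 1 ≤ Real.sqrt (dK K) := Real.one_le_sqrt.2 hd1
  have hnk : 1 ≤ Nf K k := one_le_Nf hRK.k_ne
  have hnr : 1 ≤ Nf K r := one_le_Nf hRK.r_ne
  have hnk0 : 0 < Nf K k := by linarith
  -- the function
  obtain ⟨G, hG⟩ : ∃ G : K → ℂ, G = fun x => Φ x * pF F y ω x := ⟨_, rfl⟩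
  obtain ⟨G', hG'⟩ : ∃ G' : K → ℂ, G' = fun x => if x ∈ L then G x else 0 := ⟨_, rfl⟩
  have hGG' : ∀ x ∈ L, G' x = G x := fun x hx => by rw [hG']; exact if_pos hx
  have hpFb : ∀ x, ‖pF F y ω x‖ ≤ 1 := fun x => by
    have h1 := norm_pF_le (le_refl (1 : ℝ)) (fun v z => norm_F (hF v) z) y ω x
    rwa [one_pow] at h1
  have hG'b : ∀ x, ‖G' x‖ ≤ 1 := fun x => by
    by_cases hx : x ∈ L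
    · rw [hGG' x hx, hG]
      show ‖Φ x * pF F y ω x‖ ≤ 1
      rw [norm_mul]
      exact mul_le_one₀ (hFD.norm x hx) (norm_nonneg _) (hpFb x)
    · rw [hG']
      show ‖if x ∈ L then G x else 0‖ ≤ 1
      rw [if_neg hx, norm_zero]
      exact zero_le_one
  have hG's : ∀ x, G' x ≠ 0 → ∀ v, ‖wv v x y ω - cc (t v) (Λ v) (g v)‖ ≤ 2 * m v := by
    intro x hx v
    have hxL : x ∈ L := by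
      by_contra h
      apply hx
      rw [hG']
      exact if_neg h
    rw [hGG' x hxL, hG] at hx
    have h1 : pF F y ω x ≠ 0 := right_ne_zero_of_mul hx
    rw [hmdef]
    exact supp_F (hF v) (pF_ne h1 v)
  have hSum : ∑' x : {x : K // x ∈ L}, Φ x * pF F y ω x = ∑' x : {x : K // x ∈ L}, G' x :=
    tsum_congr fun x => by rw [hGG' x.1 x.2, hG]
  have HU' : ∀ (M : FI K) (c : InfinitePlace K → ℂ) (R : InfinitePlace K → ℝ), M ≠ 0 →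
      (∀ v, 0 ≤ R v) →
      {x : K | x ∈ M ∧ ∀ v, ‖wv v x y ω - c v‖ ≤ R v}.Finite ∧
      ({x : K | x ∈ M ∧ ∀ v, ‖wv v x y ω - c v‖ ≤ R v}.ncard : ℝ) ≤ CU * (1 + DD M y * PP R) :=
    fun M c R hM hR => HU K hK M y ω c R hM hω hR
  have HL' : ∀ (M : FI K) (R : InfinitePlace K → ℝ), M ≠ 0 → (∀ v, 0 < R v) →
      cL * (DD M y * PP R) / Real.sqrt (dK K) ≤
        ({x : K | x ∈ M ∧ ∀ v, ‖wv v x y ω‖ ≤ R v}.ncard : ℝ) :=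
    fun M R hM hR => HL K hK M y ω R hM hω hR
  have hbox := HU' L (fun v => cc (t v) (Λ v) (g v)) (fun v => 2 * m v) hL fun v => by
    linarith [hm' v]
  have hGfin : {x : K | x ∈ L ∧ G' x ≠ 0}.Finite :=
    hbox.1.subset fun x hx => ⟨hx.1, hG's x hx.2⟩
  have htriv : ‖∑' x : {x : K // x ∈ L}, G' x‖ ≤ CU * 3 ^ n * (1 + DD L y * PP m) := by
    have h1 := tsum_boundL L G' hbox.1 (fun x hx hne => ⟨hx, hG's x hne⟩) hG'b hbox.2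
    rw [mul_one, PP_const_mul, hK] at h1
    refine h1.trans ?_
    rw [mul_assoc]
    refine mul_le_mul_of_nonneg_left ?_ (by linarith)
    have h2 : (1 : ℝ) ≤ 3 ^ n := one_le_pow₀ (by norm_num)
    have h3 : (2 : ℝ) ^ n ≤ 3 ^ n := pow_le_pow_left₀ (by norm_num) (by norm_num) n
    have h4 : DD L y * (2 ^ n * PP m) ≤ 3 ^ n * (DD L y * PP m) := by
      have h5 : 0 ≤ DD L y * PP m := by positivity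
      have h6 := mul_le_mul_of_nonneg_right h3 h5
      linarith
    linarith
  rw [hSum, ← hmdef]
  obtain ⟨D, hD⟩ : ∃ D : ℝ, D = DD L y / Nf K k := ⟨_, rfl⟩
  obtain ⟨Ψ, hΨ⟩ : ∃ Ψ : ℝ, Ψ = PP m * Nf K k := ⟨_, rfl⟩
  have hDpos : 0 < D := by
    rw [hD]
    exact div_pos hD0 hnk0
  have hΨ1 : 1 ≤ Ψ := by
    rw [hΨ]
    exact one_le_mul_of_one_le_of_one_le hPP1 hnk
  have hDΨ : D * Ψ = DD L y * PP m := by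
    rw [hD, hΨ]
    field_simp
  have hDθ : ∀ θ : ℝ, DD L y * PP m ^ (1 - θ) / Nf K k ^ θ = D * Ψ ^ (1 - θ) := by
    intro θ
    rw [hD, hΨ, Real.mul_rpow (by linarith) hnk0.le, Real.rpow_sub hnk0, Real.rpow_one]
    field_simp
  rw [← hD, ← hΨ]
  obtain ⟨Z₁, hZ₁⟩ : ∃ Z : ℝ, Z = D ^ (5 / 6 : ℝ) * Ψ ^ (13 / 15 : ℝ) := ⟨_, rfl⟩
  obtain ⟨Z₂, hZ₂⟩ : ∃ Z : ℝ, Z = D ^ (25 / 24 : ℝ) * Ψ ^ (121 / 120 : ℝ) := ⟨_, rfl⟩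
  have hZ₁0 : 0 ≤ Z₁ := by
    rw [hZ₁]
    positivity
  have hZ₂0 : 0 ≤ Z₂ := by
    rw [hZ₂]
    positivity
  have hs2 : 1 ≤ Nf K r ^ 2 * Real.sqrt (dK K) :=
    one_le_mul_of_one_le_of_one_le (one_le_pow₀ hnr) hs1
  rcases hNG D Ψ hDpos hΨ1 with hcase | ⟨R, θ₁, θ₂, θ₃, P, hR, hθ₁, hθ₂, hθ₃, hθ, hP,
    hM1, hPe, hR₁, hR₂, hR₃, hfinal⟩
  · rw [← hZ₁, ← hZ₂, hDΨ] at hcase
    rw [← hZ₁, ← hZ₂]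
    have h1 : CU * 3 ^ n * (1 + DD L y * PP m) ≤ CU * 3 ^ n * (2 * (1 + Z₁ + Z₂)) :=
      mul_le_mul_of_nonneg_left hcase hCN0
    have h2 : 2 * (CU * 3 ^ n) + 3 * E ≤
        (2 * (CU * 3 ^ n) + 3 * E) * (Nf K r ^ 2 * Real.sqrt (dK K)) :=
      le_mul_of_one_le_right (by linarith) hs2
    have h3 : CU * 3 ^ n * (2 * (1 + Z₁ + Z₂)) ≤ (2 * (CU * 3 ^ n) + 3 * E) * (1 + Z₁ + Z₂) := by
      have h4 : 0 ≤ 3 * E * (1 + Z₁ + Z₂) := by positivity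
      have h5 : (2 * (CU * 3 ^ n) + 3 * E) * (1 + Z₁ + Z₂) =
          CU * 3 ^ n * (2 * (1 + Z₁ + Z₂)) + 3 * E * (1 + Z₁ + Z₂) := by ring
      rw [h5]
      linarith
    rw [mul_assoc (2 * (CU * 3 ^ n) + 3 * E)]
    exact htriv.trans (h1.trans (h3.trans (mul_le_mul_of_nonneg_right h2 (by linarith))))
  rw [← hZ₁, ← hZ₂, hDΨ] at hfinal
  rw [← hZ₁, ← hZ₂]
  rw [hDΨ] at hM1
  obtain ⟨κ, hκ⟩ := hKP K k r hRK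
  have hEx : ∀ x : K, ∃ e : Ideal (𝓞 K), x ∈ L → Gcd k L x e := by
    intro x
    by_cases hx : x ∈ L
    · obtain ⟨e, he, -⟩ := hGX K k L x hRK.k_ne hL hx
      exact ⟨e, fun _ => he⟩
    · exact ⟨⊤, fun h => absurd h hx⟩
  choose Ex hEx using hEx
  have HY' : ∀ j : Ideal (𝓞 K), j ≠ ⊥ → ∀ (R : InfinitePlace K → ℝ) (X : Finset K),
      (∀ v, 0 < R v) → (∀ x ∈ X, x ∈ (j : FI K) * L ∧ x ≠ 0 ∧ ∀ v, ‖wv v x y ω‖ ≤ R v) →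
      ∑ x ∈ X, (∏ v : InfinitePlace K, (‖wv v x y ω‖ / R v) ^ (-(v.mult : ℝ) / 2)) *
        Real.sqrt (Nf K (Ex x)) ≤ CY * Nf K r * (DD L y * PP R) / Real.sqrt (Nf K j) := by
    intro j hj R X hR hX
    exact HY K hK L y ω R k r j X Ex hL hω hR hRK hj fun x hx =>
      ⟨(hX x hx).1, (hX x hx).2.1, (hX x hx).2.2, hEx x (mul_le_L j L (hX x hx).1)⟩
  have hθ₁1 : θ₁ ≤ 1 := by linarith
  have hθ₂1 : θ₂ ≤ 1 := by linarith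
  have hθ₃1 : θ₃ ≤ 1 := by linarith
  obtain ⟨hκ₁0, hκ₁r, hκ₁a, hκ₁b, -, -, hκσ⟩ := hκ θ₁ hθ₁ hθ₁1
  obtain ⟨hκ₂0, hκ₂r, hκ₂a, hκ₂b, -⟩ := hκ θ₂ hθ₂ hθ₂1
  obtain ⟨hκ₃0, hκ₃r, hκ₃a, hκ₃b, -⟩ := hκ θ₃ hθ₃ hθ₃1
  have hκσ' := hκσ θ₂ θ₃ hθ₂ hθ₃ hθ
  have hR0 : 0 < R := by linarith
  have hR₁1 : 1 ≤ R ^ (1 / 4 : ℝ) := Real.one_le_rpow hR (by norm_num)
  have hR₂1 : 1 ≤ R ^ (1 / 2 : ℝ) := Real.one_le_rpow hR (by norm_num)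
  obtain ⟨B₁, hB₁L, hB₁0, hB₁N, hB₁ν, hB₁d, hB₁s, hB₁m⟩ :=
    shiftsX hK hL hm' hCU1 hcL hCY hnk hnr (κ θ₁) hκ₁0 HU' HL' (HY' (κ θ₁) hκ₁0) hG's hM1 hθ₁
      hκ₁a hκ₁b (hR₁.symm.trans (hDθ θ₁).symm) hR₁1
  obtain ⟨B₂, hB₂L, hB₂0, hB₂N, hB₂ν, hB₂d, hB₂s, hB₂m⟩ :=
    shiftsX hK hL hm' hCU1 hcL hCY hnk hnr (κ θ₂) hκ₂0 HU' HL' (HY' (κ θ₂) hκ₂0) hG's hM1 hθ₂
      hκ₂a hκ₂b (hR₂.symm.trans (hDθ θ₂).symm) hR₂1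
  obtain ⟨B₃, hB₃L, hB₃0, hB₃N, hB₃ν, hB₃d, hB₃s, hB₃m⟩ :=
    shiftsX hK hL hm' hCU1 hcL hCY hnk hnr (κ θ₃) hκ₃0 HU' HL' (HY' (κ θ₃) hκ₃0) hG's hM1 hθ₃
      hκ₃a hκ₃b (hR₃.symm.trans (hDθ θ₃).symm) hR
  rw [← hc₂] at hB₁ν hB₂ν hB₃ν
  have hR₁0 : 0 < R ^ (1 / 4 : ℝ) := by linarith
  have hR₂0 : 0 < R ^ (1 / 2 : ℝ) := by linarith
  have hCUD : ∀ R' : ℝ, 0 ≤ R' → 2 * CU * R' ≤ CD * R' := fun R' hR' =>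
    mul_le_mul_of_nonneg_right (by linarith) hR'
  have htd := hTD K L G' B₁ B₂ B₃ _ _ _ _ (CD * R ^ (1 / 4 : ℝ)) (CD * R ^ (1 / 2 : ℝ)) hGfin
    hG'b (fun b hb => mul_le_L _ L (hB₁L b hb)) (fun b hb => mul_le_L _ L (hB₂L b hb))
    (fun b hb => mul_le_L _ L (hB₃L b hb)) hB₁0 hB₂0 hB₃0 hB₁N hB₂N hB₃N hB₁ν hB₂ν hB₃ν
    (hB₁m.trans (hCUD _ hR₁0.le)) (hB₂m.trans (hCUD _ hR₂0.le))
  -- the sum over the triples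
  obtain ⟨Pm, hPm⟩ : ∃ Pm : ℝ, Pm = PP m ^ (1 - θ₁ - θ₂ - θ₃) := ⟨_, rfl⟩
  have hPm0 : 0 < Pm := by
    rw [hPm]
    exact Real.rpow_pos_of_pos (PP_pos hm0) _
  have hPnk : P = Pm * Nf K k ^ (1 - (θ₁ + θ₂ + θ₃)) := by
    rw [hPe, hΨ, Real.mul_rpow (by linarith) hnk0.le, ← hPm]
    congr 2
    ring
  have hP0 : 0 < P := by linarith
  have hM0 : 0 ≤ DD L y * PP m := by linarith
  have hterm : ∀ g₁ ∈ nd B₁, ∀ g₂ ∈ nd B₂, ∀ g₃ ∈ nd B₃,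
      ‖∑' x : {x : K // x ∈ L}, dif g₃ (dif g₂ (dif g₁ G')) x‖ ≤
      C₃ * Nf K r ^ 3 * Real.sqrt (dK K) * (k₁ * (DD L y * PP m) * Pm ^ (-(1 / 2) : ℝ) *
        Nf K k ^ (-(1 / 2) : ℝ)) *
        ((Wt m θ₁ y ω g₁ * Real.sqrt (Nf K (Ex g₁))) *
          ((Wt m θ₂ y ω g₂ * Real.sqrt (Nf K (Ex g₂))) *
          (Wt m θ₃ y ω g₃ * Real.sqrt (Nf K (Ex g₃))))) +
      C₃ * Nf K r ^ 3 * Real.sqrt (dK K) * (k₂ * Pm ^ (1 / 2 : ℝ) *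
        Nf K k ^ ((1 - (θ₁ + θ₂ + θ₃)) / 2)) := by
    intro g₁ h₁ g₂ h₂ g₃ h₃
    have hg₁ := hB₁d g₁ h₁
    have hg₂ := hB₂d g₂ h₂
    have hg₃ := hB₃d g₃ h₃
    have l₁ := mul_le_L _ L hg₁.1
    have l₂ := mul_le_L _ L hg₂.1
    have l₃ := mul_le_L _ L hg₃.1
    have e1 : ∑' x : {x : K // x ∈ L}, dif g₃ (dif g₂ (dif g₁ G')) x =
        ∑' x : {x : K // x ∈ L}, dif g₃ (dif g₂ (dif g₁ G)) x :=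
      tsum_congr fun x => dif_congr (dif_congr (dif_congr hGG' l₁) l₂) l₃ x.1 x.2
    rw [e1, hk₁, hk₂]
    refine GD.term_X hC₃ hK hL hω hRK hm ?_ hmdef hθ₁ hθ₂ hθ₃ rfl hθ hκ₁r hκ₂r hκ₃r hκσ' hg₁ hg₂
      hg₃ (hEx g₁ l₁) (hEx g₂ l₂) (hEx g₃ l₃) hPm
    intro a₁ a₂ a₃ e₁ e₂ e₃ z₁ z₂ z₃ b₁ b₂ b₃ q₁ q₂ q₃ hsm
    rw [hG]
    exact H3 K hK L y ω t Λ a g F k r Φ hL hω hRK.k_ne hRK.r_ne hF hFD a₁ a₂ a₃ e₁ e₂ e₃ z₁ z₂ z₃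
      b₁ b₂ b₃ q₁ q₂ q₃ hsm
  have hW0 : ∀ (θ : ℝ) (B : Finset K), (∀ x ∈ nd B, x ≠ 0 ∧
      ∀ v, ‖wv v x y ω‖ ≤ 1 / 2000 * m v ^ (1 - θ)) → ∀ x ∈ nd B,
      0 ≤ Wt m θ y ω x * Real.sqrt (Nf K (Ex x)) := fun θ B hB x hx =>
    mul_nonneg (zero_le_one.trans (one_le_Wt hm' hω (hB x hx).1 (hB x hx).2))
      (Real.sqrt_nonneg _)
  have hT := GD.triple_sum2 (by positivity) (by positivity)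
    (hW0 θ₁ B₁ fun x hx => (hB₁d x hx).2) (hW0 θ₂ B₂ fun x hx => (hB₂d x hx).2)
    (hW0 θ₃ B₃ fun x hx => (hB₃d x hx).2) hterm hB₁s hB₂s hB₃s hB₁m hB₂m hB₃m
  have hT' := GD.numT hC₃ hnr (by linarith) hk₁0 hk₂0 hM0 hPm0 hnk0 rfl hPnk (by linarith)
    (by linarith) hCD hR₁0.le hR₂0.le hR0.le hT
  have hR₁4 : (R ^ (1 / 4 : ℝ)) ^ 4 = R := by
    rw [← Real.rpow_natCast, ← Real.rpow_mul hR0.le]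
    norm_num
  have hR₂2 : (R ^ (1 / 2 : ℝ)) ^ 2 = R := by
    rw [← Real.rpow_natCast, ← Real.rpow_mul hR0.le]
    norm_num
  have hp₁0 : 0 ≤ P ^ (-(1 / 2) : ℝ) := Real.rpow_nonneg hP0.le _
  have hp₂0 : 0 ≤ P ^ (1 / 2 : ℝ) := Real.rpow_nonneg hP0.le _
  have hs3 : 1 ≤ Real.sqrt (dK K) * Nf K r := one_le_mul_of_one_le_of_one_le hs1 hnr
  have hnum := numbers hM1 hs3 hR hR₁0 hR₂0 hR₁4 hR₂2 hc₂0 hCD0 hCN0 hC₃ hk₁0 hk₂0 hp₁0 hp₂0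
    le_rfl
  rw [← hE] at hnum
  have hall := GD.numF htd (by positivity) (by positivity) hnr hE0 (by positivity) hT' hnum
  have hres := hfinal (E * (Nf K r ^ 2 * Real.sqrt (dK K))) _ (by positivity) (norm_nonneg _) hall
  refine hres.trans ?_
  rw [mul_assoc (2 * (CU * 3 ^ n) + 3 * E)]
  have hz0 : 0 ≤ Nf K r ^ 2 * Real.sqrt (dK K) := by linarith
  generalize Nf K r ^ 2 * Real.sqrt (dK K) = z at hz0 ⊢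
  have h4 : E * z * (3 * (Z₁ + Z₂)) ≤ E * z * (3 * (1 + Z₁ + Z₂)) :=
    mul_le_mul_of_nonneg_left (by linarith) (by positivity)
  have h5 : (2 * (CU * 3 ^ n) + 3 * E) * z * (1 + Z₁ + Z₂) =
      E * z * (3 * (1 + Z₁ + Z₂)) + 2 * (CU * 3 ^ n) * z * (1 + Z₁ + Z₂) := by ring
  have h6 : 0 ≤ 2 * (CU * 3 ^ n) * z * (1 + Z₁ + Z₂) := by positivity
  rw [h5]
  linarith

end Pool.Agent.H86.SWX
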