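import Pool.Agent.H31.SX.TargetsR

/-!
# (RA) duality for the ideals of a finite ring with a nondegenerate additive character
-/

set_option autoImplicit false

open Finset Complex

namespace Pool.Agent.H86.SWX

open Pool.Agent.H29.TC (AC MC)
open Pool.Agent.H31.SX

section

variable {R : Type} [CommRing R] [Fintype R]

open scoped Classical in
/-- the sum of a nontrivial character over an ideal -/
private theorem sum_zero (I : Ideal R) (φ : R → ℂ)
    (hφ : ∀ x ∈ I, ∀ y ∈ I, φ (x + y) = φ x * φ y) (u : R) (hu : u ∈ I) (hu1 : φ u ≠ 1) :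
    (∑ t : R, if t ∈ I then φ t else 0) = 0 := by
  have h1 : (∑ t : R, if t ∈ I then φ t else 0) =
      φ u * ∑ t : R, if t ∈ I then φ t else 0 := by
    rw [Finset.mul_sum]
    calc (∑ t : R, if t ∈ I then φ t else 0)
        = ∑ t : R, if t + u ∈ I then φ (t + u) else 0 :=
          (Equiv.sum_comp (Equiv.addRight u) (fun t => if t ∈ I then φ t else 0)).symm
      _ = ∑ t : R, φ u * (if t ∈ I then φ t else 0) := by
          apply Finset.sum_congr rfl
          intro t _
          have h2 : t + u ∈ I ↔ t ∈ I := by
            constructor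
            · intro h
              have := I.sub_mem h hu
              rwa [add_sub_cancel_right] at this
            · intro h
              exact I.add_mem h hu
          by_cases ht : t ∈ I
          · rw [if_pos (h2.2 ht), if_pos ht, hφ t ht u hu, mul_comm]
          · rw [if_neg (fun h => ht (h2.1 h)), if_neg ht, mul_zero]
  have h3 : (1 - φ u) * (∑ t : R, if t ∈ I then φ t else 0) = 0 := by
    rw [sub_mul, one_mul, ← h1, sub_self]
  rcases mul_eq_zero.1 h3 with h | h
  · exact absurd (sub_eq_zero.1 h).symm hu1
  · exact h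

open scoped Classical in
/-- the number of the elements of an ideal -/
private theorem sum_one (I : Ideal R) :
    (∑ t : R, if t ∈ I then (1 : ℂ) else 0) = (Nat.card I : ℂ) := by
  rw [← Finset.sum_filter, Finset.sum_const, nsmul_eq_mul, mul_one, Nat.card_eq_fintype_card,
    Fintype.card_subtype]

omit [Fintype R] in
private theorem ac_zero {θ : R → ℂ} (h : AC θ) : θ 0 = 1 := by
  have h1 := h.add 0 0
  rw [add_zero] at h1
  have h2 : θ 0 ≠ 0 := h.ne 0
  exact (mul_eq_left₀ h2).1 h1.symm

open scoped Classical in
/-- orthogonality -/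
private theorem orth {θ : R → ℂ} (h : ND θ) (I : Ideal R) (ν : R) :
    (∑ t : R, if t ∈ I then θ (ν * t) else 0) =
      if ∀ t ∈ I, ν * t = 0 then (Nat.card I : ℂ) else 0 := by
  split_ifs with h1
  · rw [← sum_one I]
    apply Finset.sum_congr rfl
    intro t _
    by_cases ht : t ∈ I
    · rw [if_pos ht, if_pos ht, h1 t ht, ac_zero h.ac]
    · rw [if_neg ht, if_neg ht]
  · push Not at h1
    obtain ⟨t, ht, ht0⟩ := h1
    obtain ⟨s, hs⟩ : ∃ s, θ (s * (ν * t)) ≠ 1 := by
      by_contra hcon
      push Not at hcon
      exact ht0 (h.nd _ hcon)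
    refine sum_zero I (fun t => θ (ν * t)) ?_ (s * t) (I.mul_mem_left s ht) ?_
    · intro x _ y _
      rw [mul_add, h.ac.add]
    · have : ν * (s * t) = s * (ν * t) := by ring
      simp only [this]
      exact hs

open scoped Classical in
/-- orthogonality for the whole ring -/
private theorem orth_top {θ : R → ℂ} (h : ND θ) (t : R) :
    ∑ ν : R, θ (ν * t) = if t = 0 then (Fintype.card R : ℂ) else 0 := by
  have h1 := orth h ⊤ t
  simp only [Submodule.mem_top, if_true, true_implies] at h1
  have h2 : ∑ ν : R, θ (ν * t) = ∑ ν : R, θ (t * ν) := by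
    apply Finset.sum_congr rfl
    intro ν _
    rw [mul_comm]
  rw [h2, h1]
  by_cases ht : t = 0
  · subst ht
    simp
  · rw [if_neg ht, if_neg]
    intro h3
    have := h3 1
    rw [mul_one] at this
    exact ht this

open scoped Classical in
/-- the number of the elements of the annihilator -/
private theorem card_ann {θ : R → ℂ} (h : ND θ) (I : Ideal R) :
    (Nat.card I : ℝ) * ({y : R | ∀ t ∈ I, y * t = 0}.ncard : ℝ) = (Fintype.card R : ℝ) := by
  have h1 : (∑ ν : R, ∑ t : R, if t ∈ I then θ (ν * t) else 0) =
      (Nat.card I : ℂ) * ({y : R | ∀ t ∈ I, y * t = 0}.ncard : ℂ) := by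
    simp_rw [orth h I]
    rw [← Finset.sum_filter, Finset.sum_const, nsmul_eq_mul, mul_comm]
    congr 2
    rw [Set.ncard_eq_toFinset_card']
    congr 1
    ext y
    simp
  have h2 : (∑ ν : R, ∑ t : R, if t ∈ I then θ (ν * t) else 0) = (Fintype.card R : ℂ) := by
    rw [Finset.sum_comm]
    have h3 : ∀ t : R, (∑ ν : R, if t ∈ I then θ (ν * t) else 0) =
        if t = 0 then (Fintype.card R : ℂ) else 0 := by
      intro t
      by_cases ht : t ∈ I
      · simp only [if_pos ht]
        exact orth_top h t
      · simp only [if_neg ht, Finset.sum_const_zero]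
        rw [if_neg]
        rintro rfl
        exact ht I.zero_mem
    simp_rw [h3]
    rw [Finset.sum_ite_eq' Finset.univ (0 : R), if_pos (Finset.mem_univ _)]
  have h4 := h1.symm.trans h2
  exact_mod_cast h4

end

open scoped Classical in
theorem pf_RA : X_RA := by
  intro R _ _ θ hθ I
  refine ⟨?_, ?_, card_ann hθ I, orth hθ I⟩
  · intro φ hφ hn
    by_contra hcon
    push Not at hcon
    have h1 : ∀ ν : R, (∑ t : R, if t ∈ I then φ t * (starRingEnd ℂ) (θ (ν * t)) else 0) = 0 := by
      intro ν
      obtain ⟨u, hu, hu1⟩ := hcon ν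
      refine sum_zero I (fun t => φ t * (starRingEnd ℂ) (θ (ν * t))) ?_ u hu ?_
      · intro x hx y hy
        rw [hφ x hx y hy, mul_add, hθ.ac.add, map_mul]
        ring
      · intro h
        apply hu1
        have h2 : (starRingEnd ℂ) (θ (ν * u)) * θ (ν * u) = 1 := by
          rw [Complex.conj_mul', hθ.ac.norm]
          simp
        calc φ u = φ u * ((starRingEnd ℂ) (θ (ν * u)) * θ (ν * u)) := by rw [h2, mul_one]
          _ = (φ u * (starRingEnd ℂ) (θ (ν * u))) * θ (ν * u) := by ring
          _ = θ (ν * u) := by rw [h, one_mul]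
    have h2 : (∑ ν : R, ∑ t : R, if t ∈ I then φ t * (starRingEnd ℂ) (θ (ν * t)) else 0) =
        φ 0 * (Fintype.card R : ℂ) := by
      rw [Finset.sum_comm]
      have h3 : ∀ t : R, (∑ ν : R, if t ∈ I then φ t * (starRingEnd ℂ) (θ (ν * t)) else 0) =
          if t = 0 then φ 0 * (Fintype.card R : ℂ) else 0 := by
        intro t
        by_cases ht : t ∈ I
        · simp only [if_pos ht]
          rw [← Finset.mul_sum, ← map_sum, orth_top hθ t]
          by_cases ht0 : t = 0
          · rw [if_pos ht0, if_pos ht0, ht0, Complex.conj_natCast]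
          · rw [if_neg ht0, if_neg ht0, map_zero, mul_zero]
        · simp only [if_neg ht, Finset.sum_const_zero]
          rw [if_neg]
          rintro rfl
          exact ht I.zero_mem
      simp_rw [h3]
      rw [Finset.sum_ite_eq' Finset.univ (0 : R), if_pos (Finset.mem_univ _)]
    simp_rw [h1] at h2
    rw [Finset.sum_const_zero] at h2
    rcases mul_eq_zero.1 h2.symm with h | h
    · have := hn 0 I.zero_mem
      rw [h, norm_zero] at this
      exact zero_ne_one this
    · have : Fintype.card R ≠ 0 := Fintype.card_ne_zero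
      exact this (by exact_mod_cast h)
  · intro x hx
    set J : Ideal R := I ⊔ Ideal.span {x} with hJ
    have hIJ : I ≤ J := le_sup_left
    have hann : {y : R | ∀ t ∈ J, y * t = 0} = {y : R | ∀ t ∈ I, y * t = 0} := by
      ext y
      constructor
      · intro h t ht
        exact h t (hIJ ht)
      · intro h t ht
        obtain ⟨a, ha, b, hb, rfl⟩ := Submodule.mem_sup.1 ht
        obtain ⟨c, rfl⟩ := Ideal.mem_span_singleton'.1 hb
        rw [mul_add, h a ha, zero_add]
        have h1 := hx y h
        calc y * (c * x) = c * (x * y) := by ring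
          _ = 0 := by rw [h1, mul_zero]
    have h1 := card_ann hθ I
    have h2 := card_ann hθ J
    rw [hann, ← h1] at h2
    have hpos : (0 : ℝ) < ({y : R | ∀ t ∈ I, y * t = 0}.ncard : ℝ) := by
      have : 0 < {y : R | ∀ t ∈ I, y * t = 0}.ncard := by
        rw [Set.ncard_pos]
        exact ⟨0, fun t _ => zero_mul t⟩
      exact_mod_cast this
    have h3 : Nat.card J = Nat.card I := by
      have := mul_right_cancel₀ hpos.ne' h2
      exact_mod_cast this
    have h4 : (I : Set R) = (J : Set R) := by
      apply Set.eq_of_subset_of_ncard_le hIJ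
      change Nat.card J ≤ Nat.card I
      rw [h3]
    have h5 : x ∈ (J : Set R) := by
      change x ∈ J
      exact (le_sup_right : Ideal.span {x} ≤ J) (Ideal.mem_span_singleton_self x)
    rw [← h4] at h5
    exact h5

end Pool.Agent.H86.SWX
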