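import Pool.Agent.H63.SWL.GD
import Pool.Agent.H31.SX.TargetsD
import Pool.Agent.H31.SX.TargetsS

/-!
# Module GD of the board swx_modules, part a: the sets of shifts and the single terms
-/

set_option autoImplicit false

open NumberField NumberField.InfinitePlace Set
open scoped nonZeroDivisors

namespace Pool.Agent.H86.SWX.GD

open Pool.Agent.H25.HK Pool.Agent.H31.SW Pool.Agent.H31.SX Pool.Agent.H63.SWL Pool.Agent.H23.LB
open Pool.Agent.H63.SWL.GD (Wt one_le_Wt)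
open Pool.Agent.H29.DW (dg Rl wv Pos rv wv_add)

variable {K : Type} [Field K] [NumberField K]

/-! ### Ideals -/

theorem one_le_Nf {k : Ideal (𝓞 K)} (hk : k ≠ ⊥) : 1 ≤ Nf K k := by
  unfold Nf
  have : Ideal.absNorm k ≠ 0 := by rwa [Ne, Ideal.absNorm_eq_zero_iff]
  exact_mod_cast Nat.one_le_iff_ne_zero.2 this

theorem Nf_mono {k j : Ideal (𝓞 K)} (hk : k ≠ ⊥) (h : k ≤ j) : Nf K j ≤ Nf K k := by
  unfold Nf
  have h1 : Ideal.absNorm k ≠ 0 := by rwa [Ne, Ideal.absNorm_eq_zero_iff]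
  exact_mod_cast Nat.le_of_dvd (Nat.pos_of_ne_zero h1) (Ideal.absNorm_dvd_absNorm_of_le h)

theorem Nf_mul (k j : Ideal (𝓞 K)) : Nf K (k * j) = Nf K k * Nf K j := by
  unfold Nf
  rw [map_mul]
  push_cast
  rfl

theorem mul_le_L (κ : Ideal (𝓞 K)) (L : FI K) : (κ : FI K) * L ≤ L := by
  calc (κ : FI K) * L ≤ 1 * L := by
        gcongr
        exact FractionalIdeal.coeIdeal_le_one
    _ = L := one_mul L

theorem mul_mono_L {κ r : Ideal (𝓞 K)} (h : κ ≤ r) (L : FI K) :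
    (κ : FI K) * L ≤ (r : FI K) * L := by
  gcongr

theorem DD_mul (κ : Ideal (𝓞 K)) (L : FI K) (y : InfinitePlace K → ℝ) :
    DD ((κ : FI K) * L) y = DD L y / Nf K κ := by
  unfold DD Nf
  rw [map_mul, FractionalIdeal.coeIdeal_absNorm]
  push_cast
  rw [div_div, mul_comm ((Ideal.absNorm κ : ℕ) : ℝ)]

/-- the norm of the greatest common divisors -/
theorem Nf_G {k : Ideal (𝓞 K)} (hk : k ≠ ⊥) {L : FI K} {g₁ g₂ g₃ : K}
    {e₁ e₂ e₃ κ₁ κ₂ κ₃ : Ideal (𝓞 K)} (h₁ : Gcd k L g₁ e₁) (h₂ : Gcd k L g₂ e₂)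
    (h₃ : Gcd k L g₃ e₃) (k₁ : g₁ ∈ (κ₁ : FI K) * L) (k₂ : g₂ ∈ (κ₂ : FI K) * L)
    (k₃ : g₃ ∈ (κ₃ : FI K) * L) :
    Nf K (k ⊔ e₁ * e₂ * e₃) ≤ Nf K e₁ * Nf K e₂ * Nf K e₃ ∧
    Nf K (k ⊔ κ₁ * κ₂ * κ₃) ≤ Nf K (k ⊔ e₁ * e₂ * e₃) := by
  have hne : ∀ {e : Ideal (𝓞 K)}, k ≤ e → e ≠ ⊥ := fun h h0 => hk (le_bot_iff.1 (h0 ▸ h))
  have n₁ := hne h₁.le
  have n₂ := hne h₂.le
  have n₃ := hne h₃.le
  constructor
  · rw [← Nf_mul, ← Nf_mul]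
    exact Nf_mono (mul_ne_zero (mul_ne_zero n₁ n₂) n₃) le_sup_right
  · apply Nf_mono (fun h => hk (le_bot_iff.1 (h ▸ le_sup_left)))
    have hle : ∀ {g : K} {e κ : Ideal (𝓞 K)}, Gcd k L g e → g ∈ (κ : FI K) * L →
        e ≤ k ⊔ κ := by
      intro g e κ he hκ
      exact he.min _ le_sup_left (mul_mono_L le_sup_right L hκ)
    refine sup_le le_sup_left ?_
    calc e₁ * e₂ * e₃ ≤ (k ⊔ κ₁) * (k ⊔ κ₂) * (k ⊔ κ₃) := by
          gcongr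
          · exact hle h₁ k₁
          · exact hle h₂ k₂
          · exact hle h₃ k₃
      _ ≤ k ⊔ κ₁ * κ₂ * κ₃ := by
          have e1 : (k ⊔ κ₁) * (k ⊔ κ₂) ≤ k ⊔ κ₁ * κ₂ := by
            rw [Ideal.sup_mul, Ideal.mul_sup]
            refine sup_le (sup_le ?_ ?_) ?_
            · exact Ideal.mul_le_left.trans le_sup_left
            · exact Ideal.mul_le_left.trans le_sup_left
            · rw [Ideal.mul_sup]
              exact sup_le (Ideal.mul_le_right.trans le_sup_left) le_sup_right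
          have e2 : (k ⊔ κ₁ * κ₂) * (k ⊔ κ₃) ≤ k ⊔ κ₁ * κ₂ * κ₃ := by
            rw [Ideal.sup_mul, Ideal.mul_sup]
            refine sup_le (sup_le ?_ ?_) ?_
            · exact Ideal.mul_le_left.trans le_sup_left
            · exact Ideal.mul_le_left.trans le_sup_left
            · rw [Ideal.mul_sup]
              exact sup_le (Ideal.mul_le_right.trans le_sup_left) le_sup_right
          exact (Ideal.mul_mono_left e1).trans e2

/-! ### Differences on the lattice -/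

theorem dif_congr {L : FI K} {H H' : K → ℂ} (h : ∀ x ∈ L, H' x = H x) {g : K} (hg : g ∈ L) :
    ∀ x ∈ L, dif g H' x = dif g H x := by
  intro x hx
  unfold dif
  rw [h x hx, h _ (add_memL hx hg)]

open scoped Classical in
/-- the sets of shifts -/
theorem shiftsX {n : ℕ} (hK : Module.finrank ℚ K = n) {L : FI K} (hL : L ≠ 0)
    {y : InfinitePlace K → ℝ} {ω : InfinitePlace K → ℂ}
    {m : InfinitePlace K → ℝ} (hm : ∀ v, 1 ≤ m v) {CU cL CY nk nr : ℝ} (hCU : 1 ≤ CU)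
    (hcL : 0 < cL) (hCY : 1 ≤ CY) (hnk : 1 ≤ nk) (hnr : 1 ≤ nr) (κ : Ideal (𝓞 K)) (hκ : κ ≠ ⊥)
    (HU : ∀ (M : FI K) (c : InfinitePlace K → ℂ) (R : InfinitePlace K → ℝ), M ≠ 0 →
      (∀ v, 0 ≤ R v) →
      {x : K | x ∈ M ∧ ∀ v, ‖wv v x y ω - c v‖ ≤ R v}.Finite ∧
      ({x : K | x ∈ M ∧ ∀ v, ‖wv v x y ω - c v‖ ≤ R v}.ncard : ℝ) ≤ CU * (1 + DD M y * PP R))
    (HL : ∀ (M : FI K) (R : InfinitePlace K → ℝ), M ≠ 0 → (∀ v, 0 < R v) →
      cL * (DD M y * PP R) / Real.sqrt (dK K) ≤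
        ({x : K | x ∈ M ∧ ∀ v, ‖wv v x y ω‖ ≤ R v}.ncard : ℝ))
    {E : K → Ideal (𝓞 K)}
    (HY : ∀ (R : InfinitePlace K → ℝ) (X : Finset K), (∀ v, 0 < R v) →
      (∀ x ∈ X, x ∈ (κ : FI K) * L ∧ x ≠ 0 ∧ ∀ v, ‖wv v x y ω‖ ≤ R v) →
      ∑ x ∈ X, (∏ v : InfinitePlace K, (‖wv v x y ω‖ / R v) ^ (-(v.mult : ℝ) / 2)) *
        Real.sqrt (Nf K (E x)) ≤ CY * nr * (DD L y * PP R) / Real.sqrt (Nf K κ))
    {F : K → ℂ} {c : InfinitePlace K → ℂ}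
    (hF : ∀ x, F x ≠ 0 → ∀ v, ‖wv v x y ω - c v‖ ≤ 2 * m v)
    (hM : 1 ≤ DD L y * PP m) {θ : ℝ} (hθ : 0 ≤ θ) (hκ1 : nk ^ θ ≤ Nf K κ)
    (hκ2 : Nf K κ ≤ nk ^ θ * nr) {Rθ : ℝ} (hR : Rθ = DD L y * PP m ^ (1 - θ) / nk ^ θ)
    (hR1 : 1 ≤ Rθ) :
    ∃ B : Finset K, (∀ b ∈ B, b ∈ (κ : FI K) * L) ∧ 0 ∈ B ∧
      ({x : K | x ∈ L ∧ ∃ b ∈ B, F (x + b) ≠ 0}.ncard : ℝ) ≤
        2 * (CU * 3 ^ n) * (DD L y * PP m) ∧
      2 * (CU * 3 ^ n) * (DD L y * PP m) / (B.card : ℝ) ≤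
        2 * (CU * 3 ^ n) / (cL * (1 / 4000) ^ n) * (DD L y * PP m) * (Real.sqrt (dK K) * nr) /
          Rθ ∧
      (∀ x ∈ nd B, x ∈ (κ : FI K) * L ∧ x ≠ 0 ∧
        ∀ v, ‖wv v x y ω‖ ≤ 1 / 2000 * m v ^ (1 - θ)) ∧
      ∑ x ∈ nd B, Wt m θ y ω x * Real.sqrt (Nf K (E x)) ≤ CY * nr * (Rθ * nk ^ (θ / 2)) ∧
      ((nd B).card : ℝ) ≤ 2 * CU * Rθ := by
  have hm0 : ∀ v, 0 < m v := fun v => by linarith [hm v]
  have hA0 : 0 < DD L y := DD_pos hL y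
  have hPP0 : 0 < PP m := PP_pos hm0
  have hLκ : (κ : FI K) * L ≠ 0 :=
    mul_ne_zero (by rwa [Ne, FractionalIdeal.coeIdeal_eq_zero]) hL
  have hnk0 : 0 < nk := by linarith
  have hnkθ : 0 < nk ^ θ := Real.rpow_pos_of_pos hnk0 _
  have hκ0 : 0 < Nf K κ := lt_of_lt_of_le hnkθ hκ1
  have hDDκ : DD ((κ : FI K) * L) y = DD L y / Nf K κ := DD_mul κ L y
  have hp0 : ∀ v, 0 < m v ^ (1 - θ) := fun v => Real.rpow_pos_of_pos (hm0 v) _
  have hp1 : ∀ v, m v ^ (1 - θ) ≤ m v := fun v => by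
    have h1 := Real.rpow_le_rpow_of_exponent_le (hm v) (by linarith : 1 - θ ≤ 1)
    rwa [Real.rpow_one] at h1
  have hE0 : 0 < PP m ^ (1 - θ) := Real.rpow_pos_of_pos hPP0 _
  have hρ0 : ∀ v, 0 < 1 / 4000 * m v ^ (1 - θ) := fun v => mul_pos (by norm_num) (hp0 v)
  have hρ0' : ∀ v, 0 < 1 / 2000 * m v ^ (1 - θ) := fun v => mul_pos (by norm_num) (hp0 v)
  have hPρ : PP (fun v => 1 / 4000 * m v ^ (1 - θ)) = (1 / 4000) ^ n * PP m ^ (1 - θ) := by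
    rw [PP_const_mul, hK, PP_rpow fun v => (hm0 v).le]
  have hPρ' : PP (fun v => 1 / 2000 * m v ^ (1 - θ)) = (1 / 2000) ^ n * PP m ^ (1 - θ) := by
    rw [PP_const_mul, hK, PP_rpow fun v => (hm0 v).le]
  have hBfin : {x : K | x ∈ (κ : FI K) * L ∧
      ∀ v, ‖wv v x y ω‖ ≤ 1 / 4000 * m v ^ (1 - θ)}.Finite := by
    have h1 := (HU _ (fun _ => 0) (fun v => 1 / 4000 * m v ^ (1 - θ)) hLκ
      fun v => (hρ0 v).le).1
    simpa only [sub_zero] using h1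
  have hmem : ∀ x, x ∈ hBfin.toFinset ↔ x ∈ (κ : FI K) * L ∧
      ∀ v, ‖wv v x y ω‖ ≤ 1 / 4000 * m v ^ (1 - θ) := fun x => by
    rw [Set.Finite.mem_toFinset]
    rfl
  have h0B : (0 : K) ∈ hBfin.toFinset := by
    rw [hmem]
    refine ⟨zero_memL _, fun v => ?_⟩
    rw [Pool.Agent.H29.DW.wv_zero, norm_zero]
    exact (hρ0 v).le
  have hnd : ∀ x ∈ nd hBfin.toFinset, x ∈ (κ : FI K) * L ∧ x ≠ 0 ∧
      ∀ v, ‖wv v x y ω‖ ≤ 1 / 2000 * m v ^ (1 - θ) := by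
    intro x hx
    unfold nd at hx
    obtain ⟨hx1, hx0⟩ := Finset.mem_filter.1 hx
    obtain ⟨q, hq, rfl⟩ := Finset.mem_image.1 hx1
    obtain ⟨hq1, hq2⟩ := Finset.mem_product.1 hq
    rw [hmem] at hq1 hq2
    refine ⟨sub_memL hq1.1 hq2.1, hx0, fun v => ?_⟩
    rw [wv_sub]
    have h1 := hq1.2 v
    have h2 := hq2.2 v
    refine (norm_sub_le _ _).trans ?_
    linarith
  refine ⟨hBfin.toFinset, fun b hb => ((hmem b).1 hb).1, h0B, ?_, ?_, hnd, ?_, ?_⟩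
  · -- the number of the shifted points
    obtain ⟨hS2, hS2c⟩ := HU L c (fun v => 3 * m v) hL fun v => by linarith [hm v]
    have h1 : {x : K | x ∈ L ∧ ∃ b ∈ hBfin.toFinset, F (x + b) ≠ 0} ⊆
        {x : K | x ∈ L ∧ ∀ v, ‖wv v x y ω - c v‖ ≤ 3 * m v} := by
      rintro x ⟨hx, b, hb, hne⟩
      refine ⟨hx, fun v => ?_⟩
      have h3 := hF _ hne v
      have h4 := ((hmem b).1 hb).2 v
      have h5 := hp1 v
      rw [wv_add] at h3
      have h7 : wv v x y ω - c v = (wv v x y ω + wv v b y ω - c v) - wv v b y ω := by ring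
      rw [h7]
      have h8 := hm v
      exact (norm_sub_le _ _).trans (by linarith)
    have h2 : ({x : K | x ∈ L ∧ ∃ b ∈ hBfin.toFinset, F (x + b) ≠ 0}.ncard : ℝ) ≤
        ({x : K | x ∈ L ∧ ∀ v, ‖wv v x y ω - c v‖ ≤ 3 * m v}.ncard : ℝ) := by
      exact_mod_cast Set.ncard_le_ncard h1 hS2
    refine h2.trans (hS2c.trans ?_)
    rw [PP_const_mul, hK]
    have h3 : (1 : ℝ) ≤ 3 ^ n := one_le_pow₀ (by norm_num)
    have h4 : 1 + DD L y * (3 ^ n * PP m) ≤ 2 * (3 ^ n * (DD L y * PP m)) := by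
      have h5 : 1 ≤ 3 ^ n * (DD L y * PP m) := one_le_mul_of_one_le_of_one_le h3 hM
      have h6 : DD L y * (3 ^ n * PP m) = 3 ^ n * (DD L y * PP m) := by ring
      rw [h6]
      linarith
    have h5 := mul_le_mul_of_nonneg_left h4 (by linarith : 0 ≤ CU)
    refine h5.trans (le_of_eq ?_)
    ring
  · -- the number of the shifts
    have hd0 : 0 < dK K := by linarith [one_le_dK (K := K)]
    have hsd : 0 < Real.sqrt (dK K) := Real.sqrt_pos.2 hd0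
    have hBpos : 0 < (hBfin.toFinset.card : ℝ) := by
      exact_mod_cast (Finset.card_pos.2 ⟨0, h0B⟩)
    have hc1 : 0 < cL * (1 / 4000) ^ n := mul_pos hcL (by positivity)
    have hBlow : cL * (1 / 4000) ^ n * Rθ / (Real.sqrt (dK K) * nr) ≤
        (hBfin.toFinset.card : ℝ) := by
      have h1 := HL _ (fun v => 1 / 4000 * m v ^ (1 - θ)) hLκ hρ0
      rw [hPρ, hDDκ] at h1
      rw [← Set.ncard_eq_toFinset_card _ hBfin]
      refine le_trans ?_ h1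
      rw [hR]
      have h2 : DD L y * PP m ^ (1 - θ) / nk ^ θ / nr ≤ DD L y * PP m ^ (1 - θ) / Nf K κ := by
        rw [div_div]
        exact div_le_div_of_nonneg_left (by positivity) hκ0 hκ2
      calc cL * (1 / 4000) ^ n * (DD L y * PP m ^ (1 - θ) / nk ^ θ) / (Real.sqrt (dK K) * nr)
          = cL * (1 / 4000) ^ n / Real.sqrt (dK K) *
            (DD L y * PP m ^ (1 - θ) / nk ^ θ / nr) := by
            field_simp
        _ ≤ cL * (1 / 4000) ^ n / Real.sqrt (dK K) *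
            (DD L y * PP m ^ (1 - θ) / Nf K κ) :=
            mul_le_mul_of_nonneg_left h2 (by positivity)
        _ = _ := by ring
    have hR0 : 0 < Rθ := by linarith
    have hs0 : 0 < Real.sqrt (dK K) * nr := mul_pos hsd (by linarith)
    generalize cL * (1 / 4000) ^ n = c₁ at *
    generalize (hBfin.toFinset.card : ℝ) = b at *
    generalize Real.sqrt (dK K) * nr = s at *
    have hN0 : 0 ≤ 2 * (CU * 3 ^ n) * (DD L y * PP m) := by positivity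
    rw [div_le_iff₀ hBpos]
    have h1 : 2 * (CU * 3 ^ n) / c₁ * (DD L y * PP m) * s / Rθ * (c₁ * Rθ / s) =
        2 * (CU * 3 ^ n) * (DD L y * PP m) := by
      generalize 2 * (CU * 3 ^ n) = z₁
      generalize DD L y * PP m = z₂
      field_simp
    calc 2 * (CU * 3 ^ n) * (DD L y * PP m) =
          2 * (CU * 3 ^ n) / c₁ * (DD L y * PP m) * s / Rθ * (c₁ * Rθ / s) := h1.symm
      _ ≤ _ := by
          refine mul_le_mul_of_nonneg_left hBlow ?_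
          positivity
  · -- the weighted sum
    refine (HY (fun v => 1 / 2000 * m v ^ (1 - θ)) (nd hBfin.toFinset) hρ0' hnd).trans ?_
    rw [hPρ', mul_div_assoc]
    have hCYn : 0 ≤ CY * nr := by positivity
    refine mul_le_mul_of_nonneg_left ?_ hCYn
    have h1 : DD L y * ((1 / 2000) ^ n * PP m ^ (1 - θ)) ≤ DD L y * PP m ^ (1 - θ) :=
      mul_le_mul_of_nonneg_left (mul_le_of_le_one_left hE0.le
        (pow_le_one₀ (by norm_num) (by norm_num))) hA0.le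
    have h2 : nk ^ (θ / 2) ≤ Real.sqrt (Nf K κ) := by
      rw [Real.sqrt_eq_rpow]
      calc nk ^ (θ / 2) = (nk ^ θ) ^ (1 / 2 : ℝ) := by
            rw [← Real.rpow_mul hnk0.le]
            congr 1
            ring
        _ ≤ _ := Real.rpow_le_rpow hnkθ.le hκ1 (by norm_num)
    have h3 : 0 < nk ^ (θ / 2) := Real.rpow_pos_of_pos hnk0 _
    calc DD L y * ((1 / 2000) ^ n * PP m ^ (1 - θ)) / Real.sqrt (Nf K κ)
        ≤ DD L y * PP m ^ (1 - θ) / nk ^ (θ / 2) :=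
          div_le_div₀ (by positivity) h1 h3 h2
      _ = Rθ * nk ^ (θ / 2) := by
          rw [hR]
          have h4 : nk ^ θ = nk ^ (θ / 2) * nk ^ (θ / 2) := by
            rw [← Real.rpow_add hnk0]
            congr 1
            ring
          rw [h4]
          field_simp
  · -- the number of the differences
    obtain ⟨hS2, hS2c⟩ := HU _ (fun _ => 0) (fun v => 1 / 2000 * m v ^ (1 - θ)) hLκ
      fun v => (hρ0' v).le
    have h1 : ((nd hBfin.toFinset).card : ℝ) ≤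
        ({x : K | x ∈ (κ : FI K) * L ∧ ∀ v, ‖wv v x y ω - 0‖ ≤
          1 / 2000 * m v ^ (1 - θ)}.ncard : ℝ) := by
      rw [← Set.ncard_coe_finset]
      refine Nat.cast_le.2 (Set.ncard_le_ncard ?_ hS2)
      intro x hx
      obtain ⟨h2, -, h3⟩ := hnd x (Finset.mem_coe.1 hx)
      refine ⟨h2, fun v => ?_⟩
      rw [sub_zero]
      exact h3 v
    refine h1.trans (hS2c.trans ?_)
    rw [hPρ', hDDκ]
    have h2 : DD L y / Nf K κ * ((1 / 2000) ^ n * PP m ^ (1 - θ)) ≤ Rθ := by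
      rw [hR]
      calc DD L y / Nf K κ * ((1 / 2000) ^ n * PP m ^ (1 - θ))
          ≤ DD L y / nk ^ θ * (1 * PP m ^ (1 - θ)) := by
            gcongr
            exact pow_le_one₀ (by norm_num) (by norm_num)
        _ = _ := by ring
    have h3 : 1 + DD L y / Nf K κ * ((1 / 2000) ^ n * PP m ^ (1 - θ)) ≤ 2 * Rθ := by linarith
    calc CU * (1 + DD L y / Nf K κ * ((1 / 2000) ^ n * PP m ^ (1 - θ)))
        ≤ CU * (2 * Rθ) := mul_le_mul_of_nonneg_left h3 (by linarith)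
      _ = _ := by ring

/-- the numbers of one term -/
theorem term_num2 {Q P k q u₁ u₂ u₃ M c nk G e₁ e₂ e₃ σ : ℝ} (hQ : 0 < Q) (hP : 0 < P)
    (hk : 0 < k) (hq : 0 < q) (hu₁ : 0 < u₁) (hu₂ : 0 < u₂) (hu₃ : 0 < u₃) (hM : 0 ≤ M)
    (hc : 0 ≤ c) (h1 : k * (u₁ * u₂ * u₃) * P ≤ Q) (h2 : Q ≤ q * P) (hnk : 0 < nk)
    (hG : 0 < G) (he₁ : 0 ≤ e₁) (he₂ : 0 ≤ e₂) (_he₃ : 0 ≤ e₃) (hGe : G ≤ e₁ * e₂ * e₃)
    (hGk : nk ^ σ ≤ G) :
    c * (M * Q ^ (-(1 / 2) : ℝ) * Real.sqrt (G / nk) + Q ^ (1 / 2 : ℝ) * Real.sqrt (nk / G)) ≤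
      c * (k ^ (-(1 / 2) : ℝ) * M * P ^ (-(1 / 2) : ℝ) * nk ^ (-(1 / 2) : ℝ)) *
        ((u₁ ^ (-(1 / 2) : ℝ) * Real.sqrt e₁) * ((u₂ ^ (-(1 / 2) : ℝ) * Real.sqrt e₂) *
          (u₃ ^ (-(1 / 2) : ℝ) * Real.sqrt e₃))) +
      c * (q ^ (1 / 2 : ℝ) * P ^ (1 / 2 : ℝ) * nk ^ ((1 - σ) / 2)) := by
  have hu : 0 < u₁ * u₂ * u₃ := mul_pos (mul_pos hu₁ hu₂) hu₃
  have e1 : Q ^ (-(1 / 2) : ℝ) ≤ (k * (u₁ * u₂ * u₃) * P) ^ (-(1 / 2) : ℝ) :=
    Real.rpow_le_rpow_of_nonpos (mul_pos (mul_pos hk hu) hP) h1 (by norm_num)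
  have e2 : (k * (u₁ * u₂ * u₃) * P) ^ (-(1 / 2) : ℝ) = k ^ (-(1 / 2) : ℝ) *
      (u₁ ^ (-(1 / 2) : ℝ) * u₂ ^ (-(1 / 2) : ℝ) * u₃ ^ (-(1 / 2) : ℝ)) * P ^ (-(1 / 2) : ℝ) := by
    rw [Real.mul_rpow (mul_pos hk hu).le hP.le, Real.mul_rpow hk.le hu.le,
      Real.mul_rpow (mul_pos hu₁ hu₂).le hu₃.le, Real.mul_rpow hu₁.le hu₂.le]
  have e3 : Q ^ (1 / 2 : ℝ) ≤ q ^ (1 / 2 : ℝ) * P ^ (1 / 2 : ℝ) := by
    rw [← Real.mul_rpow hq.le hP.le]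
    exact Real.rpow_le_rpow hQ.le h2 (by norm_num)
  have e4 : Real.sqrt (G / nk) ≤ Real.sqrt e₁ * Real.sqrt e₂ * Real.sqrt e₃ *
      nk ^ (-(1 / 2) : ℝ) := by
    rw [← Real.sqrt_mul he₁, ← Real.sqrt_mul (mul_nonneg he₁ he₂), Real.sqrt_div hG.le,
      Real.rpow_neg hnk.le, ← Real.sqrt_eq_rpow, ← div_eq_mul_inv]
    exact div_le_div_of_nonneg_right (Real.sqrt_le_sqrt hGe) (Real.sqrt_nonneg _)
  have e5 : Real.sqrt (nk / G) ≤ nk ^ ((1 - σ) / 2) := by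
    have h3 : nk / G ≤ nk ^ (1 - σ) := by
      rw [Real.rpow_sub hnk, Real.rpow_one]
      exact div_le_div_of_nonneg_left hnk.le (Real.rpow_pos_of_pos hnk _) hGk
    calc Real.sqrt (nk / G) ≤ Real.sqrt (nk ^ (1 - σ)) := Real.sqrt_le_sqrt h3
      _ = nk ^ ((1 - σ) / 2) := by
          rw [Real.sqrt_eq_rpow, ← Real.rpow_mul hnk.le]
          congr 1
          ring
  rw [e2] at e1
  have q1 : 0 ≤ Q ^ (-(1 / 2) : ℝ) := Real.rpow_nonneg hQ.le _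
  have q2 : 0 ≤ Q ^ (1 / 2 : ℝ) := Real.rpow_nonneg hQ.le _
  have f1 : M * Q ^ (-(1 / 2) : ℝ) * Real.sqrt (G / nk) ≤
      M * (k ^ (-(1 / 2) : ℝ) * (u₁ ^ (-(1 / 2) : ℝ) * u₂ ^ (-(1 / 2) : ℝ) *
        u₃ ^ (-(1 / 2) : ℝ)) * P ^ (-(1 / 2) : ℝ)) *
        (Real.sqrt e₁ * Real.sqrt e₂ * Real.sqrt e₃ * nk ^ (-(1 / 2) : ℝ)) := by
    apply mul_le_mul (mul_le_mul_of_nonneg_left e1 hM) e4 (Real.sqrt_nonneg _)
    positivity
  have f2 : Q ^ (1 / 2 : ℝ) * Real.sqrt (nk / G) ≤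
      q ^ (1 / 2 : ℝ) * P ^ (1 / 2 : ℝ) * nk ^ ((1 - σ) / 2) :=
    mul_le_mul e3 e5 (Real.sqrt_nonneg _) (by positivity)
  have f3 := mul_le_mul_of_nonneg_left (add_le_add f1 f2) hc
  refine f3.trans (le_of_eq ?_)
  ring

end Pool.Agent.H86.SWX.GD
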